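import Mathlib

/-! A 0/1 matrix in which every `2m x 2m` submatrix contains a 2x2 permutation pattern. -/

namespace Pool.Agent.H53.ENL

open Finset

/-- functions on the 2x2 square without permutation pattern (equal diagonals differing from the
equal antidiagonals) -/
def noPat (g : Bool × Bool → Bool) : Prop :=
  ¬ (g (false, false) = g (true, true) ∧ g (false, true) = g (true, false) ∧
    g (false, false) ≠ g (false, true))

instance : DecidablePred noPat := fun g => by unfold noPat; infer_instance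

theorem card_noPat : (univ.filter noPat).card = 14 := by decide

/-- the number of functions whose restriction along an embedding lies in a given set -/
theorem card_restrict {ι κ : Type*} [Fintype ι] [Fintype κ] [DecidableEq ι] [DecidableEq κ]
    (e : κ ↪ ι) (Q : Finset (κ → Bool)) :
    (univ.filter (fun M : ι → Bool => (fun x => M (e x)) ∈ Q)).card * 2 ^ Fintype.card κ
      ≤ Q.card * 2 ^ Fintype.card ι := by
  classical
  have h1 : (univ.filter (fun M : ι → Bool => (fun x => M (e x)) ∈ Q)).card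
      ≤ (Q ×ˢ (univ : Finset ({i // i ∉ Set.range e} → Bool))).card := by
    refine Finset.card_le_card_of_injOn (fun M => ((fun x => M (e x)), fun i => M i.1)) ?_ ?_
    · intro M hM
      simp only [Finset.coe_filter, Set.mem_ofPred_eq, Finset.mem_univ, true_and] at hM
      simp [hM]
    · intro M _ M' _ h
      simp only [Prod.mk.injEq] at h
      funext i
      by_cases hi : i ∈ Set.range e
      · obtain ⟨x, rfl⟩ := hi
        exact congrFun h.1 x
      · exact congrFun h.2 ⟨i, hi⟩
  rw [Finset.card_product, Finset.card_univ, Fintype.card_fun, Fintype.card_bool] at h1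
  have h2 : Fintype.card {i // i ∉ Set.range e} + Fintype.card κ = Fintype.card ι := by
    have h3 : Fintype.card {i // i ∈ Set.range e} = Fintype.card κ := by
      rw [← Fintype.card_congr (Equiv.ofInjective e e.injective)]
    have h4 := Fintype.card_subtype_compl (fun i => i ∈ Set.range e)
    have h5 := Fintype.card_subtype_le (fun i => i ∈ Set.range e)
    omega
  calc _ ≤ (Q.card * 2 ^ Fintype.card {i // i ∉ Set.range e}) * 2 ^ Fintype.card κ :=
        Nat.mul_le_mul_right _ h1
    _ = Q.card * 2 ^ Fintype.card ι := by rw [mul_assoc, ← pow_add, h2]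

/-- main existence statement -/
theorem exists_matrix (Δ m : ℕ) (hm : 0 < m) (h : Δ ^ 4 * 7 ^ m < 8 ^ m) :
    ∃ M : Fin Δ × Fin Δ → Bool, ∀ a b : Fin m × Bool ↪ Fin Δ,
      ∃ i j : Fin m, M (a (i, false), b (j, false)) = M (a (i, true), b (j, true)) ∧
        M (a (i, false), b (j, true)) = M (a (i, true), b (j, false)) ∧
        M (a (i, false), b (j, false)) ≠ M (a (i, false), b (j, true)) := by
  classical
  by_contra hcon
  push Not at hcon
  -- index type of the coordinates
  let κ := (Fin m × Fin m) × (Bool × Bool)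
  let emb : (Fin m × Bool ↪ Fin Δ) → (Fin m × Bool ↪ Fin Δ) → (κ ↪ Fin Δ × Fin Δ) := fun a b =>
    { toFun := fun x => (a (x.1.1, x.2.1), b (x.1.2, x.2.2))
      inj' := by
        rintro ⟨⟨i, j⟩, ⟨u, v⟩⟩ ⟨⟨i', j'⟩, ⟨u', v'⟩⟩ hx
        simp only [Prod.mk.injEq] at hx
        have h1 := a.injective hx.1
        have h2 := b.injective hx.2
        simp only [Prod.mk.injEq] at h1 h2
        simp [h1.1, h1.2, h2.1, h2.2] }
  let Q : Finset (κ → Bool) := univ.filter (fun g => ∀ x : Fin m × Fin m, noPat (fun y => g (x, y)))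
  have hQ : Q.card ≤ 14 ^ (m * m) := by
    have h1 : Q.card ≤ (Fintype.piFinset (fun _ : Fin m × Fin m => univ.filter noPat)).card := by
      refine Finset.card_le_card_of_injOn (fun g x y => g (x, y)) ?_ ?_
      · intro g hg
        have hg' := (Finset.mem_filter.1 hg).2
        simp only [Finset.mem_coe, Fintype.mem_piFinset, Finset.mem_filter, Finset.mem_univ,
          true_and]
        exact hg'
      · intro g _ g' _ hgg
        funext x
        exact congrFun (congrFun hgg x.1) x.2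
    rw [Fintype.card_piFinset] at h1
    simp only [card_noPat, Finset.prod_const, Finset.card_univ, Fintype.card_prod,
      Fintype.card_fin] at h1
    exact h1
  have hcov : (univ : Finset (Fin Δ × Fin Δ → Bool)) ⊆
      (univ : Finset ((Fin m × Bool ↪ Fin Δ) × (Fin m × Bool ↪ Fin Δ))).biUnion (fun ab =>
        univ.filter (fun M : Fin Δ × Fin Δ → Bool => (fun x => M (emb ab.1 ab.2 x)) ∈ Q)) := by
    intro M _
    obtain ⟨a, b, hab⟩ := hcon M
    rw [Finset.mem_biUnion]
    refine ⟨(a, b), Finset.mem_univ _, ?_⟩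
    rw [Finset.mem_filter]
    refine ⟨Finset.mem_univ _, ?_⟩
    rw [Finset.mem_filter]
    refine ⟨Finset.mem_univ _, ?_⟩
    rintro ⟨i, j⟩ ⟨h1, h2, h3⟩
    exact h3 (hab i j h1 h2)
  have hc := (Finset.card_le_card hcov).trans Finset.card_biUnion_le
  rw [Finset.card_univ, Fintype.card_fun, Fintype.card_bool] at hc
  have hκ : Fintype.card κ = 4 * (m * m) := by
    simp only [κ, Fintype.card_prod, Fintype.card_fin, Fintype.card_bool]
    ring
  have hemb : Fintype.card (Fin m × Bool ↪ Fin Δ) ≤ Δ ^ (2 * m) := by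
    have h1 : Fintype.card (Fin m × Bool ↪ Fin Δ) ≤ Fintype.card (Fin m × Bool → Fin Δ) :=
      Fintype.card_le_of_injective _ DFunLike.coe_injective
    rw [Fintype.card_fun, Fintype.card_prod, Fintype.card_fin, Fintype.card_fin,
      Fintype.card_bool] at h1
    rwa [mul_comm 2 m]
  have hterm : ∀ ab : (Fin m × Bool ↪ Fin Δ) × (Fin m × Bool ↪ Fin Δ),
      (univ.filter (fun M : Fin Δ × Fin Δ → Bool => (fun x => M (emb ab.1 ab.2 x)) ∈ Q)).card
        * 2 ^ (4 * (m * m)) ≤ 14 ^ (m * m) * 2 ^ Fintype.card (Fin Δ × Fin Δ) := by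
    intro ab
    have := card_restrict (emb ab.1 ab.2) Q
    rw [hκ] at this
    exact this.trans (Nat.mul_le_mul_right _ hQ)
  have hsum : 2 ^ Fintype.card (Fin Δ × Fin Δ) * 2 ^ (4 * (m * m))
      ≤ (Δ ^ (2 * m) * Δ ^ (2 * m)) * (14 ^ (m * m) * 2 ^ Fintype.card (Fin Δ × Fin Δ)) := by
    calc _ ≤ (∑ ab : (Fin m × Bool ↪ Fin Δ) × (Fin m × Bool ↪ Fin Δ),
          (univ.filter (fun M : Fin Δ × Fin Δ → Bool =>
            (fun x => M (emb ab.1 ab.2 x)) ∈ Q)).card) * 2 ^ (4 * (m * m)) :=
          Nat.mul_le_mul_right _ hc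
      _ = ∑ ab : (Fin m × Bool ↪ Fin Δ) × (Fin m × Bool ↪ Fin Δ),
          (univ.filter (fun M : Fin Δ × Fin Δ → Bool =>
            (fun x => M (emb ab.1 ab.2 x)) ∈ Q)).card * 2 ^ (4 * (m * m)) := by
          rw [Finset.sum_mul]
      _ ≤ ∑ _ab : (Fin m × Bool ↪ Fin Δ) × (Fin m × Bool ↪ Fin Δ),
          14 ^ (m * m) * 2 ^ Fintype.card (Fin Δ × Fin Δ) :=
          Finset.sum_le_sum fun ab _ => hterm ab
      _ = (Fintype.card (Fin m × Bool ↪ Fin Δ) * Fintype.card (Fin m × Bool ↪ Fin Δ))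
          * (14 ^ (m * m) * 2 ^ Fintype.card (Fin Δ × Fin Δ)) := by
          rw [Finset.sum_const, Finset.card_univ, Fintype.card_prod, smul_eq_mul]
      _ ≤ _ := Nat.mul_le_mul_right _ (Nat.mul_le_mul hemb hemb)
  have hpos : 0 < 2 ^ Fintype.card (Fin Δ × Fin Δ) := by positivity
  have h1 : 2 ^ (4 * (m * m)) ≤ (Δ ^ (2 * m) * Δ ^ (2 * m)) * 14 ^ (m * m) := by
    have : 2 ^ (4 * (m * m)) * 2 ^ Fintype.card (Fin Δ × Fin Δ)
        ≤ ((Δ ^ (2 * m) * Δ ^ (2 * m)) * 14 ^ (m * m)) * 2 ^ Fintype.card (Fin Δ × Fin Δ) := by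
      calc _ = 2 ^ Fintype.card (Fin Δ × Fin Δ) * 2 ^ (4 * (m * m)) := mul_comm _ _
        _ ≤ _ := hsum
        _ = _ := by ring
    exact Nat.le_of_mul_le_mul_right this hpos
  -- contradiction
  have e1 : 2 ^ (4 * (m * m)) = 2 ^ (m * m) * (8 ^ m) ^ m := by
    rw [← pow_mul, show (8 : ℕ) = 2 ^ 3 by norm_num, ← pow_mul, ← pow_add]
    congr 1
    ring
  have e2 : (Δ ^ (2 * m) * Δ ^ (2 * m)) * 14 ^ (m * m)
      = 2 ^ (m * m) * (Δ ^ 4 * 7 ^ m) ^ m := by
    rw [mul_pow, ← pow_mul, ← pow_mul, ← pow_add, show (14 : ℕ) = 2 * 7 by norm_num, mul_pow]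
    have : 2 * m + 2 * m = 4 * m := by ring
    rw [this]
    ring
  rw [e1, e2] at h1
  have h2 := Nat.le_of_mul_le_mul_left h1 (by positivity)
  exact absurd h2 (not_le.2 (Nat.pow_lt_pow_left h hm.ne'))

end Pool.Agent.H53.ENL
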